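import Pool.Agent.W544.PG.Defs4
import Pool.Agent.W216.PG.Blk

/-!
# Rigidity of the graded automorphisms of `so(q + 2)` (S_rig)
-/

set_option autoImplicit false
set_option linter.unusedSectionVars false

open Matrix Finset Module

namespace Pool.Agent.W382.PG.Rig

open Pool.Agent.W544.PG hiding bl
open Pool.Agent.W216.PG

noncomputable section

variable {q : ℕ}

/-- row vector -/
def R (u : Fin q → ℂ) : Matrix (Fin 1) (Fin q) ℂ := Matrix.of fun _ j => u j

@[simp] lemma R_apply (u : Fin q → ℂ) (i : Fin 1) (j : Fin q) : R u i j = u j := rfl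

/-- degree zero elements -/
def dd (Y : Matrix (Fin q) (Fin q) ℂ) : Matrix (I 1 q) (I 1 q) ℂ := bl 0 0 0 0 Y 0 0 0 0

/-- degree one elements -/
def ee : (Fin q → ℂ) →ₗ[ℂ] Matrix (I 1 q) (I 1 q) ℂ where
  toFun u := bl 0 (R u) 0 0 0 (-(R u)ᵀ) 0 0 0
  map_add' u v := by
    ext x y
    rcases x with x | x | x <;> rcases y with y | y | y <;> simp [add_comm]
  map_smul' c u := by
    ext x y
    rcases x with x | x | x <;> rcases y with y | y | y <;> simp

/-- elements of degree minus one -/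
def ff : (Fin q → ℂ) →ₗ[ℂ] Matrix (I 1 q) (I 1 q) ℂ where
  toFun w := bl 0 0 0 (R w)ᵀ 0 0 0 (-(R w)) 0
  map_add' u v := by
    ext x y
    rcases x with x | x | x <;> rcases y with y | y | y <;> simp [add_comm]
  map_smul' c u := by
    ext x y
    rcases x with x | x | x <;> rcases y with y | y | y <;> simp

lemma ee_apply (u : Fin q → ℂ) : ee u = bl 0 (R u) 0 0 0 (-(R u)ᵀ) 0 0 0 := rfl
lemma ff_apply (u : Fin q → ℂ) : ff u = bl 0 0 0 (R u)ᵀ 0 0 0 (-(R u)) 0 := rfl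

lemma x0_eq : x0 1 q = bl 1 0 0 0 0 0 0 0 (-1) := by
  unfold x0
  rw [big0_eq]
  simp

lemma so_iff {a c g i : Matrix (Fin 1) (Fin 1) ℂ} {b h : Matrix (Fin 1) (Fin q) ℂ}
    {d f : Matrix (Fin q) (Fin 1) ℂ} {e : Matrix (Fin q) (Fin q) ℂ} :
    So (bl a b c d e f g h i) ↔ gᵀ + g = 0 ∧ dᵀ + h = 0 ∧ aᵀ + i = 0 ∧ hᵀ + d = 0 ∧
      eᵀ + e = 0 ∧ bᵀ + f = 0 ∧ iᵀ + a = 0 ∧ fᵀ + b = 0 ∧ cᵀ + c = 0 := by
  unfold So
  rw [B0_eq, bl_t, bl_mul, bl_mul, bl_add, ← bl_zero, bl_inj]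
  simp

lemma ex_bl (y : Matrix (I 1 q) (I 1 q) ℂ) : ∃ a b c d e f g h i, y = bl a b c d e f g h i := by
  refine ⟨of fun x z => y (Sum.inl x) (Sum.inl z), of fun x z => y (Sum.inl x) (Sum.inr (Sum.inl z)),
    of fun x z => y (Sum.inl x) (Sum.inr (Sum.inr z)),
    of fun x z => y (Sum.inr (Sum.inl x)) (Sum.inl z),
    of fun x z => y (Sum.inr (Sum.inl x)) (Sum.inr (Sum.inl z)),
    of fun x z => y (Sum.inr (Sum.inl x)) (Sum.inr (Sum.inr z)),
    of fun x z => y (Sum.inr (Sum.inr x)) (Sum.inl z),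
    of fun x z => y (Sum.inr (Sum.inr x)) (Sum.inr (Sum.inl z)),
    of fun x z => y (Sum.inr (Sum.inr x)) (Sum.inr (Sum.inr z)), ?_⟩
  ext x z
  rcases x with x | x | x <;> rcases z with z | z | z <;> rfl

lemma so_ee (u : Fin q → ℂ) : So (ee u) := by
  rw [ee_apply, so_iff]
  simp

lemma so_ff (u : Fin q → ℂ) : So (ff u) := by
  rw [ff_apply, so_iff]
  simp

lemma so_x0 : So (x0 1 q) := by
  rw [x0_eq, so_iff]
  simp

lemma so_dd {Y : Matrix (Fin q) (Fin q) ℂ} (hY : Yᵀ = -Y) : So (dd Y) := by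
  unfold dd
  rw [so_iff]
  simp [hY]

lemma br_x0_ee (u : Fin q → ℂ) : br (x0 1 q) (ee u) = ee u := by
  unfold br
  rw [x0_eq, ee_apply, bl_mul, bl_mul, bl_sub, bl_inj]
  simp

lemma br_x0_ff (u : Fin q → ℂ) : br (x0 1 q) (ff u) = -ff u := by
  unfold br
  have h : -ff u = (-1 : ℂ) • bl 0 0 0 (R u)ᵀ 0 0 0 (-(R u)) 0 := by
    rw [neg_one_smul]; rfl
  rw [h, x0_eq, ff_apply, bl_mul, bl_mul, bl_sub, bl_smul, bl_inj]
  simp

lemma R_mul (u w : Fin q → ℂ) : R u * (R w)ᵀ = (u ⬝ᵥ w) • (1 : Matrix (Fin 1) (Fin 1) ℂ) := by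
  ext i j
  have hi : i = j := Subsingleton.elim _ _
  subst hi
  simp [Matrix.mul_apply, dotProduct]

/-- the commutator -/
def cm (u w : Fin q → ℂ) : Matrix (Fin q) (Fin q) ℂ := (R u)ᵀ * R w - (R w)ᵀ * R u

lemma br_ee_ff (u w : Fin q → ℂ) :
    br (ee u) (ff w) = (u ⬝ᵥ w) • x0 1 q + dd (cm u w) := by
  unfold br dd cm
  rw [x0_eq, ee_apply, ff_apply, bl_mul, bl_mul, bl_sub, bl_smul, bl_add, bl_inj]
  simp [R_mul, dotProduct_comm w u]

lemma one_eq (c : Matrix (Fin 1) (Fin 1) ℂ) (h : cᵀ + c = 0) : c = 0 := by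
  ext i j
  have hi : i = j := Subsingleton.elim _ _
  subst hi
  have := congrFun (congrFun h i) i
  simp only [Matrix.add_apply, transpose_apply, Matrix.zero_apply] at this
  have h2 : (2 : ℂ) * c i i = 0 := by linear_combination this
  simpa using h2

lemma decomp {y : Matrix (I 1 q) (I 1 q) ℂ} (hy : So y) : ∃ (t : ℂ) (Y : Matrix (Fin q) (Fin q) ℂ)
    (u w : Fin q → ℂ), Yᵀ = -Y ∧ y = t • x0 1 q + dd Y + ee u + ff w := by
  obtain ⟨a, b, c, d, e, f, g, h, i, rfl⟩ := ex_bl y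
  rw [so_iff] at hy
  obtain ⟨k1, k2, k3, k4, k5, k6, k7, k8, k9⟩ := hy
  have e3 : c = 0 := one_eq c k9
  have e7 : g = 0 := one_eq g k1
  have e6 : f = -bᵀ := by
    rw [eq_neg_iff_add_eq_zero, add_comm]
    exact k6
  have e4 : d = -hᵀ := by
    rw [eq_neg_iff_add_eq_zero, add_comm]
    exact k4
  have e9 : i = -a := by
    rw [eq_neg_iff_add_eq_zero]
    have : iᵀ = i := by
      ext x y
      have hx : x = y := Subsingleton.elim _ _
      subst hx
      rfl
    rw [this] at k7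
    exact k7
  have e5 : eᵀ = -e := by
    rw [eq_neg_iff_add_eq_zero]
    exact k5
  have ha : a = a 0 0 • (1 : Matrix (Fin 1) (Fin 1) ℂ) := by
    ext x y
    have hx : x = 0 := Subsingleton.elim _ _
    have hy : y = 0 := Subsingleton.elim _ _
    subst hx
    subst hy
    simp
  refine ⟨a 0 0, e, fun j => b 0 j, fun j => -(h 0 j), e5, ?_⟩
  have hb : R (fun j => b 0 j) = b := by
    ext i j
    have hi : i = 0 := Subsingleton.elim _ _
    rw [hi]
    rfl
  have hh : R (fun j => -(h 0 j)) = -h := by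
    ext i j
    have hi : i = 0 := Subsingleton.elim _ _
    rw [hi]
    rfl
  rw [ee_apply, ff_apply, hb, hh, x0_eq, bl_smul, dd, bl_add, bl_add, bl_add, bl_inj]
  refine ⟨?_, ?_, ?_, ?_, ?_, ?_, ?_, ?_, ?_⟩
  · simpa using ha
  · simp
  · simpa using e3
  · simpa using e4
  · simp
  · simpa using e6
  · simpa using e7
  · simp
  · rw [e9]
    nth_rewrite 1 [ha]
    simp

lemma br_add (x y z : Matrix (I 1 q) (I 1 q) ℂ) : br x (y + z) = br x y + br x z := by
  unfold br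
  noncomm_ring

lemma br_smul (t : ℂ) (x y : Matrix (I 1 q) (I 1 q) ℂ) : br x (t • y) = t • br x y := by
  unfold br
  rw [mul_smul_comm, smul_mul_assoc, smul_sub]

lemma br_x0_x0 : br (x0 1 q) (x0 1 q) = 0 := by
  unfold br
  rw [sub_self]

lemma br_x0_dd (Y : Matrix (Fin q) (Fin q) ℂ) : br (x0 1 q) (dd Y) = 0 := by
  unfold br dd
  rw [x0_eq, bl_mul, bl_mul, bl_sub, ← bl_zero, bl_inj]
  simp

lemma ext4 {t : ℂ} {Y : Matrix (Fin q) (Fin q) ℂ} {u w : Fin q → ℂ}
    (h : t • x0 1 q + dd Y + ee u + ff w = 0) : t = 0 ∧ Y = 0 ∧ u = 0 ∧ w = 0 := by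
  rw [ee_apply, ff_apply, x0_eq, bl_smul, dd, bl_add, bl_add, bl_add, ← bl_zero, bl_inj] at h
  obtain ⟨h1, h2, -, h4, h5, -, -, -, -⟩ := h
  refine ⟨?_, ?_, ?_, ?_⟩
  · have := congrFun (congrFun h1 0) 0
    simpa using this
  · simpa using h5
  · funext j
    have := congrFun (congrFun h2 0) j
    simpa using this
  · funext j
    have := congrFun (congrFun h4 j) 0
    simpa using this

lemma deg1 {y : Matrix (I 1 q) (I 1 q) ℂ} (hy : So y) (h : br (x0 1 q) y = y) :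
    ∃ u, y = ee u := by
  obtain ⟨t, Y, u, w, -, rfl⟩ := decomp hy
  rw [br_add, br_add, br_add, br_smul, br_x0_x0, br_x0_dd, br_x0_ee, br_x0_ff] at h
  have h2 : t • x0 1 q + dd Y + ee 0 + ff ((2 : ℂ) • w) = 0 := by
    rw [map_zero, map_smul, two_smul]
    calc t • x0 1 q + dd Y + 0 + (ff w + ff w) = (t • x0 1 q + dd Y + ee u + ff w) -
          (t • (0 : Matrix (I 1 q) (I 1 q) ℂ) + 0 + ee u + -ff w) := by rw [smul_zero]; abel
      _ = 0 := by rw [h, sub_self]
  obtain ⟨h3, h4, -, h5⟩ := ext4 h2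
  have h6 : w = 0 := by simpa using h5
  refine ⟨u, ?_⟩
  rw [h3, h4, h6]
  have : dd (0 : Matrix (Fin q) (Fin q) ℂ) = 0 := bl_zero
  rw [this]
  simp

lemma deg2 {y : Matrix (I 1 q) (I 1 q) ℂ} (hy : So y) (h : br (x0 1 q) y = -y) :
    ∃ u, y = ff u := by
  obtain ⟨t, Y, u, w, -, rfl⟩ := decomp hy
  rw [br_add, br_add, br_add, br_smul, br_x0_x0, br_x0_dd, br_x0_ee, br_x0_ff] at h
  have h2 : t • x0 1 q + dd Y + ee ((2 : ℂ) • u) + ff 0 = 0 := by
    rw [map_zero, map_smul, two_smul]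
    calc t • x0 1 q + dd Y + (ee u + ee u) + 0 = (t • (0 : Matrix (I 1 q) (I 1 q) ℂ) + 0 + ee u +
          -ff w) - -(t • x0 1 q + dd Y + ee u + ff w) := by rw [smul_zero]; abel
      _ = 0 := by rw [h, sub_self]
  obtain ⟨h3, h4, h5, -⟩ := ext4 h2
  have h6 : u = 0 := by simpa using h5
  refine ⟨w, ?_⟩
  rw [h3, h4, h6]
  have : dd (0 : Matrix (Fin q) (Fin q) ℂ) = 0 := bl_zero
  rw [this]
  simp

/-- a linear map for which all vectors are eigenvectors -/
lemma scal (L : (Fin q → ℂ) →ₗ[ℂ] (Fin q → ℂ)) (h : ∀ v i j, v i * L v j = L v i * v j) :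
    ∃ δ : ℂ, ∀ v, L v = δ • v := by
  rcases isEmpty_or_nonempty (Fin q) with hq | ⟨⟨k0⟩⟩
  · exact ⟨0, fun v => funext fun i => (hq.false i).elim⟩
  have h1 : ∀ k j, j ≠ k → L (Pi.single k 1) j = 0 := by
    intro k j hj
    have := h (Pi.single k 1) k j
    simpa [hj] using this
  have h2 : ∀ k, L (Pi.single k 1) k = L (Pi.single k0 1) k0 := by
    intro k
    by_cases hk : k = k0
    · rw [hk]
    have h3 := h (Pi.single k 1 + Pi.single k0 1) k k0
    rw [map_add] at h3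
    simp only [Pi.add_apply, Pi.single_eq_same, Pi.single_eq_of_ne hk,
      Pi.single_eq_of_ne (Ne.symm hk), h1 k k0 (Ne.symm hk), h1 k0 k hk, add_zero, zero_add,
      one_mul, mul_one] at h3
    exact h3.symm
  refine ⟨L (Pi.single k0 1) k0, fun v => ?_⟩
  have h3 : L = (L (Pi.single k0 1) k0) • LinearMap.id := by
    apply LinearMap.pi_ext'
    intro k
    ext j
    simp only [LinearMap.comp_apply, LinearMap.single_apply, LinearMap.smul_apply,
      LinearMap.id_apply, Pi.smul_apply, smul_eq_mul]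
    by_cases hj : j = k
    · subst hj
      rw [h2, Pi.single_eq_same, mul_one]
    · rw [h1 k j hj, Pi.single_eq_of_ne hj, mul_zero]
  have h4 := congrArg (fun M : (Fin q → ℂ) →ₗ[ℂ] (Fin q → ℂ) => M v) h3
  simpa using h4

lemma cm_zero_iff {u w : Fin q → ℂ} (h : cm u w = 0) (i j : Fin q) : u i * w j = w i * u j := by
  have := congrFun (congrFun h i) j
  simpa [cm, Matrix.mul_apply, sub_eq_zero] using this

/-- the matrix of the intertwiner -/
def AA (δ : ℂ) (M : Matrix (Fin q) (Fin q) ℂ) : Matrix (I 1 q) (I 1 q) ℂ :=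
  bl (δ⁻¹ • 1) 0 0 0 M 0 0 0 1

lemma ee_inj {u v : Fin q → ℂ} (h : ee u = ee v) : u = v := by
  have h1 : (0 : ℂ) • x0 1 q + dd 0 + ee (u - v) + ff 0 = 0 := by
    have : dd (0 : Matrix (Fin q) (Fin q) ℂ) = 0 := bl_zero
    rw [this, map_sub, h]
    simp
  exact sub_eq_zero.1 (ext4 h1).2.2.1

lemma ff_inj {u v : Fin q → ℂ} (h : ff u = ff v) : u = v := by
  have h1 : (0 : ℂ) • x0 1 q + dd 0 + ee 0 + ff (u - v) = 0 := by
    have : dd (0 : Matrix (Fin q) (Fin q) ℂ) = 0 := bl_zero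
    rw [this, map_sub, h]
    simp
  exact sub_eq_zero.1 (ext4 h1).2.2.2

lemma cm_self (u : Fin q → ℂ) : cm u u = 0 := by
  unfold cm
  rw [sub_self]

lemma skew_eq (E : Matrix (Fin q) (Fin q) ℂ) (hE : Eᵀ = -E) :
    E = ∑ a, ∑ b, (E a b / 2) • cm (Pi.single a 1) (Pi.single b 1) := by
  have h0 : ∀ a b : Fin q, cm (Pi.single a 1) (Pi.single b 1) =
      (single a b (1 : ℂ) - single b a 1) := by
    intro a b
    ext i j
    simp only [cm, Matrix.sub_apply, Matrix.mul_apply, transpose_apply, R_apply, single_apply,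
      Pi.single_apply, Finset.univ_unique, Finset.sum_singleton]
    grind
  have h1 : E = (1 / 2 : ℂ) • (E - Eᵀ) := by
    rw [hE, sub_neg_eq_add, ← two_smul ℂ E, smul_smul]; norm_num
  have h2 : E = ∑ a, ∑ b, E a b • single a b (1 : ℂ) := by
    conv_lhs => rw [matrix_eq_sum_single E]
    refine Finset.sum_congr rfl fun a _ => Finset.sum_congr rfl fun b _ => ?_
    rw [smul_single, smul_eq_mul, mul_one]
  have h3 : Eᵀ = ∑ a, ∑ b, E a b • single b a (1 : ℂ) := by
    conv_lhs => rw [h2]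
    rw [transpose_sum]
    refine Finset.sum_congr rfl fun a _ => ?_
    rw [transpose_sum]
    refine Finset.sum_congr rfl fun b _ => ?_
    rw [transpose_smul, transpose_single]
  have h5 : E - Eᵀ = (∑ a, ∑ b, E a b • single a b (1 : ℂ))
      - ∑ a, ∑ b, E a b • single b a (1 : ℂ) := by rw [← h3, ← h2]
  conv_lhs => rw [h1, h5]
  rw [← Finset.sum_sub_distrib, Finset.smul_sum]
  refine Finset.sum_congr rfl fun a _ => ?_
  rw [← Finset.sum_sub_distrib, Finset.smul_sum]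
  refine Finset.sum_congr rfl fun b _ => ?_
  rw [← smul_sub, smul_smul, h0]
  congr 1
  ring

lemma dd_add (Y Z : Matrix (Fin q) (Fin q) ℂ) : dd (Y + Z) = dd Y + dd Z := by
  unfold dd
  rw [bl_add]
  simp

lemma dd_smul (c : ℂ) (Y : Matrix (Fin q) (Fin q) ℂ) : dd (c • Y) = c • dd Y := by
  unfold dd
  rw [bl_smul]
  simp

theorem rig : S_rig := by
  intro q hq θ hmap hinj hsurj hbr hx0
  have hE : ∀ u : Fin q → ℂ, ∃ v, θ (ee u) = ee v := by
    intro u
    apply deg1 (hmap _ (so_ee u))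
    have h1 := hbr _ _ so_x0 (so_ee u)
    rw [br_x0_ee, hx0] at h1
    exact h1.symm
  have hF : ∀ u : Fin q → ℂ, ∃ v, θ (ff u) = ff v := by
    intro u
    apply deg2 (hmap _ (so_ff u))
    have h1 := hbr _ _ so_x0 (so_ff u)
    rw [br_x0_ff, hx0, map_neg] at h1
    exact h1.symm
  choose A0 hA0 using hE
  choose D0 hD0 using hF
  let A : (Fin q → ℂ) →ₗ[ℂ] (Fin q → ℂ) :=
    { toFun := A0
      map_add' := fun u v => ee_inj (by rw [← hA0, map_add, map_add, map_add, hA0, hA0])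
      map_smul' := fun c u => ee_inj (by
        rw [← hA0, map_smul, map_smul, RingHom.id_apply, map_smul, hA0]) }
  let D : (Fin q → ℂ) →ₗ[ℂ] (Fin q → ℂ) :=
    { toFun := D0
      map_add' := fun u v => ff_inj (by rw [← hD0, map_add, map_add, map_add, hD0, hD0])
      map_smul' := fun c u => ff_inj (by
        rw [← hD0, map_smul, map_smul, RingHom.id_apply, map_smul, hD0]) }
  have hA : ∀ u, θ (ee u) = ee (A u) := hA0
  have hD : ∀ u, θ (ff u) = ff (D u) := hD0
  have hAinj : Function.Injective A := by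
    intro u v huv
    have h1 : θ (ee (u - v)) = 0 := by
      rw [map_sub, map_sub, hA, hA, huv, sub_self]
    have h2 := hinj _ (so_ee _) h1
    rw [map_sub, sub_eq_zero] at h2
    exact ee_inj h2
  have hself : ∀ u, A u ⬝ᵥ D u = u ⬝ᵥ u ∧ cm (A u) (D u) = 0 := by
    intro u
    have h1 := hbr _ _ (so_ee u) (so_ff u)
    have h0 : dd (0 : Matrix (Fin q) (Fin q) ℂ) = 0 := bl_zero
    rw [hA, hD, br_ee_ff, br_ee_ff, cm_self, h0, add_zero, map_smul, hx0] at h1
    have h2 : (A u ⬝ᵥ D u - u ⬝ᵥ u) • x0 1 q + dd (cm (A u) (D u)) + ee 0 + ff 0 = 0 := by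
      rw [map_zero, map_zero, sub_smul, h1]
      abel
    obtain ⟨h3, h4, -, -⟩ := ext4 h2
    exact ⟨sub_eq_zero.1 h3, h4⟩
  let Ae := LinearEquiv.ofInjectiveEndo A hAinj
  have hAe : ∀ v, A (Ae.symm v) = v := fun v => LinearEquiv.apply_symm_apply Ae v
  obtain ⟨δ, hδ⟩ := scal (D ∘ₗ (Ae.symm : (Fin q → ℂ) →ₗ[ℂ] (Fin q → ℂ))) (by
    intro v i j
    have h1 := (hself (Ae.symm v)).2
    rw [hAe] at h1
    exact cm_zero_iff h1 i j)
  have hDA : ∀ u, D u = δ • A u := by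
    intro u
    have h1 := hδ (A u)
    have h2 : Ae.symm (A u) = u := LinearEquiv.symm_apply_apply Ae u
    simp only [LinearMap.comp_apply, LinearEquiv.coe_coe] at h1
    rw [h2] at h1
    exact h1
  have hdot : ∀ u, δ * (A u ⬝ᵥ A u) = u ⬝ᵥ u := by
    intro u
    have h1 := (hself u).1
    rw [hDA, dotProduct_smul, smul_eq_mul] at h1
    exact h1
  have hpol : ∀ u w, δ * (A u ⬝ᵥ A w) = u ⬝ᵥ w := by
    intro u w
    have h1 := hdot (u + w)
    rw [map_add, dotProduct_add, add_dotProduct, add_dotProduct, dotProduct_add, add_dotProduct,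
      add_dotProduct, dotProduct_comm (A w) (A u), dotProduct_comm w u] at h1
    have h2 := hdot u
    have h3 := hdot w
    have h4 : (2 : ℂ) * (δ * (A u ⬝ᵥ A w)) = 2 * (u ⬝ᵥ w) := by
      linear_combination h1 - h2 - h3
    exact mul_left_cancel₀ two_ne_zero h4
  have hδ0 : δ ≠ 0 := by
    rintro rfl
    have h1 := hdot (Pi.single ⟨0, hq⟩ 1)
    simp at h1
  set M : Matrix (Fin q) (Fin q) ℂ := LinearMap.toMatrix' A with hM
  have hMv : ∀ u, M *ᵥ u = A u := fun u => LinearMap.toMatrix'_mulVec A u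
  have hRM : ∀ u, (R (A u))ᵀ = M * (R u)ᵀ := by
    intro u
    ext i j
    rw [← hMv]
    simp [Matrix.mul_apply, Matrix.mulVec, dotProduct]
  have hRM' : ∀ u, R (A u) = R u * Mᵀ := by
    intro u
    have := congrArg Matrix.transpose (hRM u)
    rw [transpose_transpose, transpose_mul, transpose_transpose] at this
    exact this
  have hMM : Mᵀ * M = δ⁻¹ • 1 := by
    ext i j
    have h1 := hpol (Pi.single i 1) (Pi.single j 1)
    have h2 : (Mᵀ * M) i j = A (Pi.single i 1) ⬝ᵥ A (Pi.single j 1) := by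
      rw [← hMv, ← hMv]
      simp [Matrix.mul_apply, dotProduct]
    rw [h2]
    have h3 : A (Pi.single i 1) ⬝ᵥ A (Pi.single j 1) =
        δ⁻¹ * ((Pi.single i 1 : Fin q → ℂ) ⬝ᵥ Pi.single j 1) := by
      rw [← h1]
      field_simp
    rw [h3]
    simp [Matrix.one_apply, Pi.single_apply, eq_comm]
  refine ⟨AA δ M, ?_, ?_⟩
  · intro h
    have h1 := congrFun (congrFun h (Sum.inr (Sum.inr 0))) (Sum.inr (Sum.inr 0))
    simp [AA] at h1
  -- the intertwining property
  have pE : ∀ u, AA δ M * ee u = θ (ee u) * AA δ M := by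
    intro u
    rw [hA, ee_apply, ee_apply, AA, bl_mul, bl_mul, bl_inj]
    simp only [Matrix.mul_zero, Matrix.zero_mul, add_zero, zero_add, Matrix.mul_neg,
      Matrix.mul_one, true_and, and_true, neg_inj, Matrix.smul_mul, Matrix.one_mul, neg_zero,
      smul_zero]
    refine ⟨?_, ?_⟩
    · rw [hRM', Matrix.mul_assoc, hMM, Matrix.mul_smul, Matrix.mul_one]
    · rw [hRM]
  have pF : ∀ u, AA δ M * ff u = θ (ff u) * AA δ M := by
    intro u
    have hRD : R (D u) = δ • R (A u) := by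
      rw [hDA]
      ext i j
      simp
    rw [hD, ff_apply, ff_apply, AA, bl_mul, bl_mul, bl_inj, hRD]
    simp only [Matrix.mul_zero, Matrix.zero_mul, add_zero, zero_add, Matrix.mul_neg,
      Matrix.mul_one, true_and, and_true, neg_inj, Matrix.neg_mul, Matrix.smul_mul, Matrix.one_mul,
      transpose_smul, Matrix.mul_smul, neg_zero, smul_zero]
    refine ⟨?_, ?_⟩
    · rw [hRM, smul_smul, inv_mul_cancel₀ hδ0, one_smul]
    · rw [hRM', Matrix.mul_assoc, hMM, Matrix.mul_smul, Matrix.mul_one, smul_smul,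
        mul_inv_cancel₀ hδ0, one_smul]
  have pX : AA δ M * x0 1 q = θ (x0 1 q) * AA δ M := by
    rw [hx0, x0_eq, AA, bl_mul, bl_mul, bl_inj]
    simp
  have pAdd : ∀ y z, AA δ M * y = θ y * AA δ M → AA δ M * z = θ z * AA δ M →
      AA δ M * (y + z) = θ (y + z) * AA δ M := by
    intro y z h1 h2
    rw [mul_add, map_add, add_mul, h1, h2]
  have pSmul : ∀ (c : ℂ) y, AA δ M * y = θ y * AA δ M →
      AA δ M * (c • y) = θ (c • y) * AA δ M := by
    intro c y h1
    rw [mul_smul_comm, map_smul, smul_mul_assoc, h1]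
  have pC : ∀ u w, AA δ M * dd (cm u w) = θ (dd (cm u w)) * AA δ M := by
    intro u w
    have h1 : AA δ M * br (ee u) (ff w) = θ (br (ee u) (ff w)) * AA δ M := by
      rw [hbr _ _ (so_ee u) (so_ff w)]
      unfold br
      rw [mul_sub, sub_mul, ← mul_assoc, pE, mul_assoc, pF, ← mul_assoc, ← mul_assoc, pF,
        mul_assoc (θ (ff w)), pE, ← mul_assoc]
    have h2 : dd (cm u w) = br (ee u) (ff w) + (-(u ⬝ᵥ w)) • x0 1 q := by
      rw [br_ee_ff, neg_smul]
      abel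
    rw [h2]
    exact pAdd _ _ h1 (pSmul _ _ pX)
  have pD : ∀ Y : Matrix (Fin q) (Fin q) ℂ, Yᵀ = -Y → AA δ M * dd Y = θ (dd Y) * AA δ M := by
    intro Y hY
    let W : Submodule ℂ (Matrix (Fin q) (Fin q) ℂ) :=
      { carrier := {Y | AA δ M * dd Y = θ (dd Y) * AA δ M}
        add_mem' := by
          intro a b ha hb
          change AA δ M * dd (a + b) = θ (dd (a + b)) * AA δ M
          rw [dd_add]
          exact pAdd _ _ ha hb
        zero_mem' := by
          change AA δ M * dd 0 = θ (dd 0) * AA δ M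
          have h0 : dd (0 : Matrix (Fin q) (Fin q) ℂ) = 0 := bl_zero
          rw [h0]
          simp
        smul_mem' := by
          intro c a ha
          change AA δ M * dd (c • a) = θ (dd (c • a)) * AA δ M
          rw [dd_smul]
          exact pSmul _ _ ha }
    have h1 : Y ∈ W := by
      rw [skew_eq Y hY]
      exact Submodule.sum_mem _ fun a _ => Submodule.sum_mem _ fun b _ =>
        W.smul_mem _ (pC _ _)
    exact h1
  intro y hy
  obtain ⟨t, Y, u, w, hY, rfl⟩ := decomp hy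
  exact pAdd _ _ (pAdd _ _ (pAdd _ _ (pSmul _ _ pX) (pD Y hY)) (pE u)) (pF w)

end

end Pool.Agent.W382.PG.Rig
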